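import Pool.Agent.Lib.MP_a78e1f_lc.R.Iface

/-!
# MQ: the values `mq r q`
-/

universe u v w

open Cardinal Filter MeasureTheory

namespace Pool.Agent.Lib.MP_a78e1f_lc.H71

open Pool.Agent.Lib.MP_100a6c_lc
open Pool.Agent.Lib.MP_c5d73d_lc.F (pr)
open Pool.Agent.Lib.MP_e6fef2_lc
open Pool.Agent.Lib.MP_6d445e_gt

instance cm_prob : IsProbabilityMeasure cm := by
  unfold cm
  infer_instance

section

variable {A : Type u} [CompleteBooleanAlgebra A]

theorem real_le (E F : Set (Pt A)) (g : Ult A) :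
    cm.real (sec E g) ≤ cm.real (sec F g) + cm.real (sec (E \ F) g) := by
  refine le_trans (measureReal_mono (s₂ := sec F g ∪ sec (E \ F) g) ?_) (measureReal_union_le _ _)
  intro x hx
  by_cases h : (g, x) ∈ F
  · exact Or.inl h
  · exact Or.inr ⟨hx, h⟩

theorem real_le_of_null {E F : Set (Pt A)} {g : Ult A} (h : cm (sec (E \ F) g) = 0) :
    cm.real (sec E g) ≤ cm.real (sec F g) := by
  have h1 := real_le E F g
  have h2 : cm.real (sec (E \ F) g) = 0 := by
    rw [Measure.real, h]; rfl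
  rw [h2, add_zero] at h1
  exact h1

theorem real_union (E F : Set (Pt A)) (g : Ult A) :
    cm.real (sec (E ∪ F) g) ≤ cm.real (sec E g) + cm.real (sec F g) :=
  measureReal_union_le _ _

theorem rep_le (hrep : RepStatement.{u}) (hrapi : RapiStatement.{u}) {r s : RA A} (h : r ≤ s) :
    nl (rep r \ rep s) := by
  have h1 := (hrep A).1
  refine ((hrapi A).1 (rep r) (rep s) (h1 r).1 (h1 s).1).1 ?_
  rw [(h1 r).2, (h1 s).2]
  exact h

theorem rep_le_of (hrep : RepStatement.{u}) (hrapi : RapiStatement.{u}) {r s : RA A} (h : r ≤ s) :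
    ∀ᶠ g in ae A, cm.real (sec (rep r) g) ≤ cm.real (sec (rep s) g) :=
  (rep_le hrep hrapi h).mono fun _ hg => real_le_of_null hg

theorem le_mkR (hrep : RepStatement.{u}) (hrapi : RapiStatement.{u}) {r : RA A} {E : Set (Pt A)}
    (hE : MeasurableSet E) : r ≤ mkR E ↔ nl (rep r \ E) := by
  have h1 := (hrep A).1
  have h2 := (hrapi A).1 (rep r) E (h1 r).1 hE
  rwa [(h1 r).2] at h2

theorem nl_of_subset {E F : Set (Pt A)} (h : E ⊆ F) : nl (E \ F) := by
  refine Filter.Eventually.of_forall fun g => ?_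
  have : sec (E \ F) g = ∅ := by
    ext x
    simp only [sec, Set.mem_sdiff, Set.mem_ofPred_eq, Set.mem_empty_iff_false, iff_false, not_and,
      not_not]
    exact fun hx => h hx
  rw [this]
  exact measure_empty

theorem rep_sup (hrep : RepStatement.{u}) (hrapi : RapiStatement.{u}) (r s : RA A) :
    nl (rep (r ⊔ s) \ (rep r ∪ rep s)) := by
  have h1 := (hrep A).1
  have hm : MeasurableSet (rep r ∪ rep s) := (h1 r).1.union (h1 s).1
  refine (le_mkR hrep hrapi hm).1 (sup_le ?_ ?_)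
  · exact (le_mkR hrep hrapi hm).2 (nl_of_subset Set.subset_union_left)
  · exact (le_mkR hrep hrapi hm).2 (nl_of_subset Set.subset_union_right)

theorem nl_of_real {E : Set (Pt A)} (h : ∀ᶠ g in ae A, cm.real (sec E g) = 0) : nl E := by
  refine h.mono fun g hg => ?_
  rwa [measureReal_eq_zero_iff] at hg

theorem mq_ae (hrep : RepStatement.{u}) (hmeas : MeasStatement.{u}) (r : RA A) (q : ℝ) :
    ∀ᶠ g in ae A, mq r q ∈ g ↔ q < cm.real (sec (rep r) g) := by
  refine (hmeas A).2.1 (fun g => q < cm.real (sec (rep r) g)) ?_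
  exact measurableSet_lt measurable_const ((hmeas A).1 (rep r) ((hrep A).1 r).1)

end

theorem mq (hrep : RepStatement.{u}) (hrapi : RapiStatement.{u}) (hkap : KapStatement.{u})
    (hmeas : MeasStatement.{u}) : MqStatement.{u} := by
  intro A _
  have hmq : ∀ (r : RA A) (q : ℝ), ∀ᶠ g in ae A,
      Pool.Agent.Lib.MP_a78e1f_lc.mq r q ∈ g ↔ q < cm.real (sec (rep r) g) := mq_ae hrep hmeas
  refine ⟨hmq, ?_, ?_, ?_, ?_, ?_, ?_, ?_⟩
  · intro r s q q' hrs hq
    refine le_of_ae ?_
    filter_upwards [hmq r q, hmq s q', rep_le_of hrep hrapi hrs] with g h1 h2 h3 h4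
    rw [h1] at h4
    rw [h2]
    linarith
  · intro r s q q'
    refine le_of_ae ?_
    filter_upwards [hmq (r ⊔ s) (q + q'), hmq r q, hmq s q', rep_sup hrep hrapi r s] with
      g h1 h2 h3 h4 h5
    rw [h1] at h5
    rw [g.mem_sup, h2, h3]
    by_contra hcon
    push Not at hcon
    have h6 := real_le_of_null h4
    have h7 := real_union (rep r) (rep s) g
    linarith [hcon.1, hcon.2]
  · intro r a q hq
    set E : Set (Pt A) := {p | a ∈ p.1 ∧ p ∈ rep r} with hE
    have hEm : MeasurableSet E := ((hmeas A).2.2.2.1 a).inter ((hrep A).1 r).1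
    have h0 : kap a ⊓ r = mkR E := by
      have := (hkap A).2.2.2.1 a (rep r) ((hrep A).1 r).1
      rwa [((hrep A).1 r).2] at this
    have h00 := (hrep A).2.1 E hEm
    refine eq_of_ae ?_
    filter_upwards [hmq (kap a ⊓ r) q, hmq r q, h00.1, h00.2] with g h1 h2 h3 h4
    rw [h1, g.mem_inf, h2, h0]
    have h5 : cm.real (sec (rep (mkR E)) g) = cm.real (sec E g) :=
      le_antisymm (real_le_of_null h3) (real_le_of_null h4)
    rw [h5]
    by_cases ha : a ∈ g
    · have h6 : sec E g = sec (rep r) g := by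
        ext x
        simp [hE, sec, ha]
      rw [h6]
      simp [ha]
    · have h6 : sec E g = ∅ := by
        ext x
        simp [hE, sec, ha]
      rw [h6]
      simp [ha, hq]
  · intro r hr
    have h1 : ∀ᶠ g in ae A, cm.real (sec (rep r) g) = 0 := by
      filter_upwards [ae_all fun n : ℕ => hmq r (1 / (n + 1))] with g hg
      by_contra hcon
      have h2 : 0 < cm.real (sec (rep r) g) :=
        lt_of_le_of_ne measureReal_nonneg (Ne.symm hcon)
      obtain ⟨n, hn⟩ := exists_nat_one_div_lt h2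
      have h3 := (hg n).2 hn
      rw [hr _ (by positivity)] at h3
      exact g.not_bot h3
    have h2 := nl_of_real h1
    rw [← ((hrep A).1 r).2]
    exact ((hrapi A).2.2.2.2.2.2.1 (rep r) ((hrep A).1 r).1).2 h2
  · intro q hq
    have h1 := ((hrapi A).2.2.2.2.2.2.1 (rep (⊥ : RA A)) ((hrep A).1 ⊥).1).1 ((hrep A).1 ⊥).2
    refine eq_of_ae ?_
    filter_upwards [hmq (⊥ : RA A) q, h1] with g h2 h3
    rw [h2]
    have h4 : cm.real (sec (rep (⊥ : RA A)) g) = 0 := by
      rw [Measure.real, h3]; rfl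
    rw [h4]
    exact ⟨fun h => absurd h (not_lt.2 hq), fun h => absurd h g.not_bot⟩
  · intro r
    refine eq_of_ae ?_
    filter_upwards [(hkap A).2.2.1 r, ae_all fun n : ℕ => hmq r (1 / (n + 1)),
      ae_iSup fun n : ℕ => Pool.Agent.Lib.MP_a78e1f_lc.mq r (1 / (n + 1))] with g h1 h2 h3
    rw [h1, h3]
    constructor
    · intro h4
      obtain ⟨n, hn⟩ := exists_nat_one_div_lt h4
      exact ⟨n, (h2 n).2 hn⟩
    · rintro ⟨n, hn⟩
      exact lt_trans (by positivity) ((h2 n).1 hn)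
  · intro T r q q' hq a ha haq
    obtain ⟨b, hb, hba, s, hs⟩ := (hrep A).2.2 T r (q - q') (by linarith) a ha
    refine ⟨b, hb, hba, s, le_of_ae ?_⟩
    have hsub : ∀ t : s, nl (rep (r t) \ rep (⨆ t ∈ s, r t)) := fun t =>
      rep_le hrep hrapi (le_iSup₂_of_le t.1 t.2 le_rfl)
    filter_upwards [hs, hmq (⨆ t, r t) q, hmq (⨆ t ∈ s, r t) q', ae_all hsub] with g h1 h2 h3 h4 h5
    rw [h3]
    have h6 := h2.1 (g.mono haq (g.mono hba h5))
    have h7 := h1 h5
    have h8 := real_le (rep (⨆ t, r t)) (⋃ t ∈ s, rep (r t)) g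
    have h9 : cm.real (sec (⋃ t ∈ s, rep (r t)) g) ≤ cm.real (sec (rep (⨆ t ∈ s, r t)) g) := by
      refine real_le_of_null ?_
      have h10 : sec ((⋃ t ∈ s, rep (r t)) \ rep (⨆ t ∈ s, r t)) g ⊆
          ⋃ t : s, sec (rep (r t) \ rep (⨆ t ∈ s, r t)) g := by
        rintro x ⟨hx, hx'⟩
        simp only [Set.mem_iUnion] at hx
        obtain ⟨t, ht, hx⟩ := hx
        exact Set.mem_iUnion.2 ⟨⟨t, ht⟩, hx, hx'⟩
      exact measure_mono_null h10 (measure_iUnion_null h4)
    linarith

end Pool.Agent.Lib.MP_a78e1f_lc.H71
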